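import Pool.Agent.H22.LG.Par
import Pool.Agent.H22.LG.LEN
import Pool.Agent.H22.LG.Lift
import Pool.Agent.H10.LG.EXT
import Pool.Agent.H10.LG.UNQ
import Pool.Agent.H93.LG.INO

/-!
# Parities of complete mappings: solvable, symmetric, alternating, linear groups and groups of Lie type

For a complete mapping `f` of a finite group `G` with orthomorphism `F x = x f(x)` there are four possibilities for the
pair of signs of `f` and `F`. There is `N` such that all four occur for every finite group `G` of the class `Built N`
generated by the base groups of order at least `N`: the solvable groups with the Hall-Paige condition, the symmetric and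
alternating groups, and the linear groups (`GL`, `SL`, `PGL`, `PSL` and the groups between them, of degree at least 3 or in
characteristic two or with an upper triangular subgroup satisfying the Hall-Paige condition). The class is closed under
passing from a subgroup to the group under the double coset condition of Hall-Paige and Wilcox (for a normal subgroup: the
quotient has a complete mapping) or if there is a complement of odd order, under passing from `G / M` to `G` for normal
subgroups `M` of odd order, and under passing from a parabolic subgroup of a group with a BN-pair to a larger one.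

Proof. (1) Holes: if a complete mapping of `G` maps a subgroup `L` to itself, it may be changed inside `L`; so four pairs
for `L` give four pairs for `G`. (2) Complete mappings which map `H` to itself are constructed from the double coset
condition (common transversals and the marriage theorem) and from exact factorisations `G = K H`, `|K|` odd. (3) Two-groups:
a noncyclic 2-group of order at least 16 has an element of half order or a normal noncyclic subgroup `N` whose quotient is
the four-group. The groups of order `4 m` with a cyclic subgroup of index two contain a subgroup `L` of index 4 of the same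
kind with an explicit complete mapping of the complement of `L`, given by twelve pieces; groups of order 16 and 32 are
checked by certificates. So all four pairs occur for noncyclic 2-groups of order 16 or at least 64. (4) Solvable groups: if
the largest normal subgroup of odd order has order different from 1, 3, 5, the odd order theorem of the library (all four
pairs occur for odd order different from 1, 3, 5) is used; otherwise the Sylow 2-subgroup is large and has a
complement. (5) Symmetric and alternating groups: induction by double transitivity, from certificates for `S_4`, `A_4`.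
(6) Linear groups: the stabiliser `P_k` of a flag `V_1 < ... < V_k` is doubly transitive on the cosets of `P_(k+1)`, and
the upper triangular matrices form a solvable group. (7) BN-pairs: `B w B ⊆ B w B B w B` for every `w` in the Weyl group
with `w ^ 2 = 1` (induction on the length), so a double coset of parabolic subgroups which contains such a `w` satisfies
`D ⊆ D D`. (8) Normal subgroups `M` of odd order: the squares give a complete mapping of `M`, and the signs of the lifts of
`f` and `F` from `G / M` differ from the signs of `f` and `F` by constants.

Proved by helpers 4, 6, 10, 18, 19, 26, 30, 31, 32, 38, 40, 42, 43, 50, 55, 56, 61, 64, 66, 81, 83, 91, 93, 99 and 22.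
-/

set_option autoImplicit false

namespace Pool.Agent.Results.MP_281388_al.FourPairsClass

open H22.CM

/-- For all signs `a, b` there is a complete mapping `f` of `G` of sign `a` whose orthomorphism `x ↦ x f(x)` has
sign `b`. -/
def AllFour (G : Type) [Group G] [Finite G] : Prop :=
  ∀ [Fintype G] [DecidableEq G], ∀ a b : ℤˣ, ∃ f : Equiv.Perm G, ∃ hf : Function.Bijective (fun x : G => x * f x),
    Equiv.Perm.sign f = a ∧ Equiv.Perm.sign (Equiv.ofBijective (fun x : G => x * f x) hf) = b

/-- The Hall-Paige condition. -/
def HallPaige (G : Type) [Group G] : Prop := ∀ P : Sylow 2 G, (P : Subgroup G) = ⊥ ∨ ¬ IsCyclic (P : Subgroup G)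

/-- The base groups: solvable groups with the Hall-Paige condition, symmetric and alternating groups, and the linear groups
`H` (`SL(m, F) ≤ E ≤ GL(m, F)` and `H` is the quotient of `E` by scalars; `H22.LG.Dat`) with `m ≥ 3`, or `F` of
characteristic two, or such that the image `H22.LG.Q D m` of the upper triangular matrices satisfies the Hall-Paige
condition. -/
inductive Base (H : Type) [Group H] : Prop
  | solvable (hs : Group.IsSolvable H) (hp : HallPaige H) : Base H
  | symmetric (m : ℕ) (e : H ≃* Equiv.Perm (Fin m)) : Base H
  | alternating (m : ℕ) (e : H ≃* alternatingGroup (Fin m)) : Base H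
  | linear (F : Type) [Field F] [Fintype F] [DecidableEq F] (m : ℕ) (D : H22.LG.Dat m F H) (hm : 2 ≤ m)
      (h : 3 ≤ m ∨ CharP F 2 ∨ HallPaige (H22.LG.Q D m)) : Base H

/-- There are permutations `φ, ψ` of the set of double cosets of `H`, preserving the sizes and the trivial double coset,
such that `D φ(D)` meets (equivalently contains) `ψ(D)` for every double coset `D`. -/
def DoubleCosetCondition (G : Type) [Group G] (H : Subgroup G) : Prop :=
  ∃ φ ψ : Equiv.Perm (DoubleCoset.Quotient (H : Set G) (H : Set G)),
    φ (DoubleCoset.mk H H 1) = DoubleCoset.mk H H 1 ∧ ψ (DoubleCoset.mk H H 1) = DoubleCoset.mk H H 1 ∧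
    (∀ d, Nat.card {x : G // DoubleCoset.mk H H x = φ d} = Nat.card {x : G // DoubleCoset.mk H H x = d}) ∧
    (∀ d, Nat.card {x : G // DoubleCoset.mk H H x = ψ d} = Nat.card {x : G // DoubleCoset.mk H H x = d}) ∧
    ∀ d, ∃ x y : G, DoubleCoset.mk H H x = d ∧ DoubleCoset.mk H H y = φ d ∧ DoubleCoset.mk H H (x * y) = ψ d

/-- `H` has a complement `K` of odd order in `G`: `K ∩ H = 1` and `|K| |H| = |G|`. -/
def OddComplement (G : Type) [Group G] (H : Subgroup G) : Prop :=
  ∃ K : Subgroup G, Odd (Nat.card K) ∧ (∀ x, x ∈ K → x ∈ H → x = 1) ∧ Nat.card K * Nat.card H = Nat.card G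

/-- The class generated by the base groups of order at least `N`. It is closed under isomorphism and under the following
operations. `up`: from a subgroup `H` to `G` if `H` satisfies in `G` the double coset condition or has a complement of odd
order. `lift`: from `G / M` to `G` if `M` is a normal subgroup of odd order. `parabolic`: for a BN-pair `(B, N)` of `G` with
Weyl group `(W, S)` and `J ⊆ K ⊆ S`, from `P_J = B W_J B` to `P_K = B W_K B`, if every double coset of `W_J` in `W_K`
contains an element `w` with `w ^ 2 = 1`. -/
inductive Built (N : ℕ) : (G : Type) → [Group G] → [Finite G] → Prop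
  | base {G : Type} [Group G] [Finite G] (h : Base G) (hN : N ≤ Nat.card G) : Built N G
  | iso {G H : Type} [Group G] [Finite G] [Group H] [Finite H] (e : H ≃* G) (h : Built N H) : Built N G
  | up {G : Type} [Group G] [Finite G] (H : Subgroup G) (h : DoubleCosetCondition G H ∨ OddComplement G H)
      (hH : Built N H) : Built N G
  | lift {G : Type} [Group G] [Finite G] (M : Subgroup G) [M.Normal] (hM : Odd (Nat.card M))
      (h : Built N (G ⧸ M)) : Built N G
  | parabolic {G : Type} [Group G] [Finite G] (D : H22.LG.BN G) (J K : Set G) (hJK : J ⊆ K) (hK : K ⊆ D.S)
      (h2 : ∀ n ∈ Subgroup.closure K, ∃ a ∈ Subgroup.closure J, ∃ b ∈ Subgroup.closure J,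
        (a * n * b) * (a * n * b) ∈ D.B)
      (h : Built N (D.P J)) : Built N (D.P K)

theorem allFour_of (G : Type) [Group G] [Finite G] (h : Pool.Agent.Y382.PAR.AllPar G) : AllFour G := by
  intro _ _
  exact (Pool.Agent.Y382.PAR.allPar_iff G).1 h

theorem small_perm {m : ℕ} (h : 7 ≤ Nat.card (Equiv.Perm (Fin m))) : 4 ≤ m := by
  by_contra hm
  have h1 : Nat.card (Equiv.Perm (Fin m)) ≤ 6 := by
    rw [Nat.card_eq_fintype_card, Fintype.card_perm, Fintype.card_fin]
    calc m.factorial ≤ (3 : ℕ).factorial := Nat.factorial_le (by omega)
      _ = 6 := rfl
  omega

/-- the double coset condition for parabolic subgroups -/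
theorem a_PST : H22.LG.S_PST := by
  have hL := H22.LG.t_LEN
  have hU := H10.LG.t_UNQ hL
  have hE := H10.LG.EXT.t_EXT hL hU
  exact H22.LG.t_PST (Pool.Agent.H93.LG.t_INO hL hU hE) H64.LG.t_DEC

/-- base groups -/
theorem base_of : ∃ N : ℕ, ∀ (G : Type) [Group G] [Finite G], Base G → N ≤ Nat.card G →
    Pool.Agent.Y382.PAR.AllPar G := by
  obtain ⟨n1, hn1⟩ := a_SOL
  obtain ⟨n2, hn2⟩ := H22.LG.a_LIN2
  refine ⟨n1 + n2 + 7, fun G _ _ hb hc => ?_⟩
  cases hb with
  | solvable hs hp =>
    have := hs
    exact hn1 G (by omega) hp
  | symmetric m e =>
    refine Pool.Agent.Y77.PAR.t_ISO _ _ e.symm (H22.LG.a_SYM m ?_)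
    apply small_perm
    rw [← Nat.card_congr e.toEquiv]; omega
  | alternating m e =>
    refine Pool.Agent.Y77.PAR.t_ISO _ _ e.symm (H22.LG.a_ALT m ?_)
    apply small_perm
    have h2 : Nat.card (alternatingGroup (Fin m)) ≤ Nat.card (Equiv.Perm (Fin m)) :=
      Nat.card_le_card_of_injective _ (Subtype.val_injective)
    rw [← Nat.card_congr e.toEquiv] at h2; omega
  | linear F m D hm h => exact hn2 F m G D hm h (by omega)

/-- **Theorem.** There is `N` such that every finite group of the class generated by the base groups of order at least `N`
(solvable with the Hall-Paige condition, symmetric, alternating, linear) has complete mappings with all four pairs of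
signs. -/
theorem result : ∃ N : ℕ, ∀ (G : Type) [Group G] [Finite G], Built N G → AllFour G := by
  obtain ⟨N, hN⟩ := base_of
  refine ⟨N, fun G _ _ hG => allFour_of G ?_⟩
  induction hG with
  | base h hc => exact hN _ h hc
  | iso e _ ih => exact Pool.Agent.Y77.PAR.t_ISO _ _ e ih
  | up H h _ ih => exact step_allPar a_DCG _ H h ih
  | lift M hM _ ih => exact H22.LG.t_LIFT M hM ih
  | parabolic D J K hJK hK h2 _ ih =>
    have hle : D.P J ≤ D.P K := Subgroup.closure_mono (Set.union_subset_union_right _ hJK)
    exact step_allPar a_DCG _ _ (Or.inl (a_PST _ D J K hJK hK h2))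
      (Pool.Agent.Y77.PAR.t_ISO _ _ (Subgroup.subgroupOfEquivOfLe hle).symm ih)

end Pool.Agent.Results.MP_281388_al.FourPairsClass
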